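import Pool.Agent.J4H93.HN.Stm

set_option autoImplicit false

/-! Project HN (MP_54bae5_nt, Q1), pieces SR, DX, MD: the mass of products of distinct primes. -/

namespace Pool.Agent.J4H46.HN

open Finset Pool.Agent.J4H93.HN

/-- products of `k` distinct members of `P0` and `l` distinct members of `P1` -/
def SG (P0 P1 : Finset ℕ) (k l : ℕ) : Finset ℕ :=
  ((P0.powersetCard k) ×ˢ (P1.powersetCard l)).image (fun z => (∏ p ∈ z.1, p) * ∏ q ∈ z.2, q)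

theorem dvd_prod {T0 T1 : Finset ℕ} (h0 : ∀ p ∈ T0, p.Prime) (h1 : ∀ p ∈ T1, p.Prime) {p : ℕ} (hp : p.Prime) :
    p ∣ (∏ p ∈ T0, p) * ∏ q ∈ T1, q ↔ p ∈ T0 ∨ p ∈ T1 := by
  constructor
  · intro h
    rcases (Nat.Prime.dvd_mul hp).1 h with h | h
    · left
      obtain ⟨a, ha, hpa⟩ := (Prime.dvd_finset_prod_iff hp.prime _).1 h
      rw [(Nat.prime_dvd_prime_iff_eq hp (h0 a ha)).1 hpa]
      exact ha
    · right
      obtain ⟨a, ha, hpa⟩ := (Prime.dvd_finset_prod_iff hp.prime _).1 h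
      rw [(Nat.prime_dvd_prime_iff_eq hp (h1 a ha)).1 hpa]
      exact ha
  · rintro (h | h)
    · exact (Finset.dvd_prod_of_mem _ h).mul_right _
    · exact (Finset.dvd_prod_of_mem _ h).mul_left _

theorem inj_SG {P0 P1 : Finset ℕ} (k l : ℕ) (h0 : ∀ p ∈ P0, p.Prime) (h1 : ∀ p ∈ P1, p.Prime)
    (hd : Disjoint P0 P1) :
    Set.InjOn (fun z : Finset ℕ × Finset ℕ => (∏ p ∈ z.1, p) * ∏ q ∈ z.2, q)
      (((P0.powersetCard k) ×ˢ (P1.powersetCard l) : Finset (Finset ℕ × Finset ℕ)) : Set (Finset ℕ × Finset ℕ)) := by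
  have key : ∀ z : Finset ℕ × Finset ℕ, z ∈ (P0.powersetCard k) ×ˢ (P1.powersetCard l) →
      z = (P0.filter (fun p => p ∣ (∏ p ∈ z.1, p) * ∏ q ∈ z.2, q),
        P1.filter (fun p => p ∣ (∏ p ∈ z.1, p) * ∏ q ∈ z.2, q)) := by
    rintro ⟨T0, T1⟩ hz
    rw [mem_product, mem_powersetCard, mem_powersetCard] at hz
    obtain ⟨⟨hT0, -⟩, ⟨hT1, -⟩⟩ := hz
    simp only at hT0 hT1
    have q0 : ∀ p ∈ T0, p.Prime := fun p hp => h0 p (hT0 hp)
    have q1 : ∀ p ∈ T1, p.Prime := fun p hp => h1 p (hT1 hp)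
    rw [Prod.mk.injEq]
    constructor
    · ext p
      rw [mem_filter]
      constructor
      · intro hp
        exact ⟨hT0 hp, (dvd_prod q0 q1 (q0 p hp)).2 (Or.inl hp)⟩
      · rintro ⟨hp, hdv⟩
        rcases (dvd_prod q0 q1 (h0 p hp)).1 hdv with h | h
        · exact h
        · exact absurd (hT1 h) (Finset.disjoint_left.1 hd hp)
    · ext p
      rw [mem_filter]
      constructor
      · intro hp
        exact ⟨hT1 hp, (dvd_prod q0 q1 (q1 p hp)).2 (Or.inr hp)⟩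
      · rintro ⟨hp, hdv⟩
        rcases (dvd_prod q0 q1 (h1 p hp)).1 hdv with h | h
        · exact absurd hp (Finset.disjoint_left.1 hd (hT0 h))
        · exact h
  intro z hz z' hz' h
  rw [Finset.mem_coe] at hz hz'
  have e1 := key z hz
  have e2 := key z' hz'
  simp only at h
  rw [e1, e2, h]

theorem R_SG {P0 P1 : Finset ℕ} (k l : ℕ) (h0 : ∀ p ∈ P0, p.Prime) (h1 : ∀ p ∈ P1, p.Prime)
    (hd : Disjoint P0 P1) : R (SG P0 P1 k l) = es P0 k * es P1 l := by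
  unfold R SG es
  rw [Finset.sum_image (inj_SG k l h0 h1 hd), Finset.sum_product, Finset.sum_mul_sum]
  apply Finset.sum_congr rfl
  intro T0 _
  apply Finset.sum_congr rfl
  intro T1 _
  push_cast
  rw [Finset.prod_div_distrib, Finset.prod_div_distrib]
  simp only [Finset.prod_const_one]
  rw [div_mul_div_comm, one_mul]

theorem R_mono {A B : Finset ℕ} (h : A ⊆ B) : R A ≤ R B :=
  Finset.sum_le_sum_of_subset_of_nonneg h (fun _ _ _ => by positivity)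

/-- (SR) -/
theorem t_SR : S_SR := fun P0 P1 k h0 h1 hd => R_SG k 11 h0 h1 hd

theorem mem_dv {P0 P1 T0 T1 : Finset ℕ} {x : ℕ} (hT0 : T0 ⊆ P0) (hT1 : T1 ⊆ P1)
    (hx : (∏ p ∈ T0, p) * ∏ q ∈ T1, q ∣ x) : T0 ⊆ Dv P0 x ∧ T1 ⊆ Dv P1 x := by
  constructor
  · intro p hp
    unfold Dv
    rw [mem_filter]
    exact ⟨hT0 hp, ((Finset.dvd_prod_of_mem _ hp).mul_right _).trans hx⟩
  · intro p hp
    unfold Dv
    rw [mem_filter]
    exact ⟨hT1 hp, ((Finset.dvd_prod_of_mem _ hp).mul_left _).trans hx⟩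

theorem dv_sub (P : Finset ℕ) (x : ℕ) : Dv P x ⊆ P := Finset.filter_subset _ _

theorem dv_SG {P0 P1 : Finset ℕ} (k l x : ℕ) : Dv (SG P0 P1 k l) x ⊆ SG (Dv P0 x) (Dv P1 x) k l := by
  intro n hn
  unfold Dv at hn
  rw [mem_filter] at hn
  obtain ⟨hn, hx⟩ := hn
  unfold SG at hn ⊢
  rw [mem_image] at hn ⊢
  obtain ⟨⟨T0, T1⟩, hz, rfl⟩ := hn
  rw [mem_product, mem_powersetCard, mem_powersetCard] at hz
  obtain ⟨⟨hT0, c0⟩, ⟨hT1, c1⟩⟩ := hz
  obtain ⟨k0, k1⟩ := mem_dv hT0 hT1 hx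
  refine ⟨(T0, T1), ?_, rfl⟩
  rw [mem_product, mem_powersetCard, mem_powersetCard]
  exact ⟨⟨k0, c0⟩, ⟨k1, c1⟩⟩

/-- (DX) -/
theorem t_DX : S_DX := by
  intro P0 P1 k x h0 h1 hd _
  calc R (Dv (SS P0 P1 k) x) ≤ R (SG (Dv P0 x) (Dv P1 x) k 11) := R_mono (dv_SG k 11 x)
    _ = _ := R_SG k 11 (fun p hp => h0 p (dv_sub _ _ hp)) (fun p hp => h1 p (dv_sub _ _ hp))
      (hd.mono (dv_sub _ _) (dv_sub _ _))

theorem R_mul (A : Finset ℕ) {p : ℕ} (hp : 0 < p) : R (A.image (fun n => p * n)) = 1 / (p : ℝ) * R A := by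
  unfold R
  rw [Finset.sum_image (fun a _ b _ h => Nat.eq_of_mul_eq_mul_left hp h), Finset.mul_sum]
  apply Finset.sum_congr rfl
  intro n _
  push_cast
  rw [div_mul_div_comm, one_mul]

/-- (MD) -/
theorem t_MD : S_MD := by
  intro P0 P1 k x p h0 h1 hd _ hk
  have hdv0 : ∀ p ∈ Dv P0 x, p.Prime := fun p hp => h0 p (dv_sub _ _ hp)
  have hdv1 : ∀ p ∈ Dv P1 x, p.Prime := fun p hp => h1 p (dv_sub _ _ hp)
  have hdd : Disjoint (Dv P0 x) (Dv P1 x) := hd.mono (dv_sub _ _) (dv_sub _ _)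
  constructor
  · intro hp
    rw [← R_SG (k - 1) 11 hdv0 hdv1 hdd, ← R_mul _ (h0 p hp).pos]
    apply R_mono
    intro n hn
    unfold Mu at hn
    rw [mem_filter] at hn
    obtain ⟨hn, hpn⟩ := hn
    have hn' := dv_SG k 11 x hn
    unfold SG at hn'
    rw [mem_image] at hn'
    obtain ⟨⟨T0, T1⟩, hz, rfl⟩ := hn'
    rw [mem_product, mem_powersetCard, mem_powersetCard] at hz
    obtain ⟨⟨hT0, c0⟩, ⟨hT1, c1⟩⟩ := hz
    simp only at hT0 hT1 c0 c1 hpn ⊢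
    have hpT : p ∈ T0 := by
      rcases (dvd_prod (fun q hq => hdv0 q (hT0 hq)) (fun q hq => hdv1 q (hT1 hq)) (h0 p hp)).1 hpn with h | h
      · exact h
      · exact absurd (dv_sub _ _ (hT1 h)) (Finset.disjoint_left.1 hd hp)
    rw [mem_image]
    refine ⟨(∏ p ∈ T0.erase p, p) * ∏ q ∈ T1, q, ?_, ?_⟩
    · unfold SG
      rw [mem_image]
      refine ⟨(T0.erase p, T1), ?_, rfl⟩
      rw [mem_product, mem_powersetCard, mem_powersetCard]
      exact ⟨⟨(Finset.erase_subset _ _).trans hT0, by rw [Finset.card_erase_of_mem hpT, c0]⟩, ⟨hT1, c1⟩⟩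
    · rw [← mul_assoc, Finset.mul_prod_erase T0 (fun p => p) hpT]
  · intro hp
    rw [← R_SG k 10 hdv0 hdv1 hdd, ← R_mul _ (h1 p hp).pos]
    apply R_mono
    intro n hn
    unfold Mu at hn
    rw [mem_filter] at hn
    obtain ⟨hn, hpn⟩ := hn
    have hn' := dv_SG k 11 x hn
    unfold SG at hn'
    rw [mem_image] at hn'
    obtain ⟨⟨T0, T1⟩, hz, rfl⟩ := hn'
    rw [mem_product, mem_powersetCard, mem_powersetCard] at hz
    obtain ⟨⟨hT0, c0⟩, ⟨hT1, c1⟩⟩ := hz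
    simp only at hT0 hT1 c0 c1 hpn ⊢
    have hpT : p ∈ T1 := by
      rcases (dvd_prod (fun q hq => hdv0 q (hT0 hq)) (fun q hq => hdv1 q (hT1 hq)) (h1 p hp)).1 hpn with h | h
      · exact absurd hp (Finset.disjoint_left.1 hd (dv_sub _ _ (hT0 h)))
      · exact h
    rw [mem_image]
    refine ⟨(∏ p ∈ T0, p) * ∏ q ∈ T1.erase p, q, ?_, ?_⟩
    · unfold SG
      rw [mem_image]
      refine ⟨(T0, T1.erase p), ?_, rfl⟩
      rw [mem_product, mem_powersetCard, mem_powersetCard]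
      exact ⟨⟨hT0, c0⟩, ⟨(Finset.erase_subset _ _).trans hT1, by rw [Finset.card_erase_of_mem hpT, c1]⟩⟩
    · rw [mul_left_comm, Finset.mul_prod_erase T1 (fun p => p) hpT]

end Pool.Agent.J4H46.HN
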